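import Pool.Agent.X183.Inner.Main

/-!
# A contracting forward composition of inner functions with divergent series, whose Denjoy-Wolff
set has full measure
-/

set_option autoImplicit false

open Filter Topology Metric MeasureTheory Pool.Agent.X183.Inner

namespace Pool.Agent.Results.MP_9b5b1e_an.FullDenjoyWolffSet

/-- There are inner functions `f n`, none of them the identity, whose forward compositions `F n`
are contracting, have interior orbits converging to the boundary and satisfy
`∑ (1 - |F n 0|) = ∞`, while the Denjoy-Wolff set of `F` has full measure (in particular positive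
measure) in the unit circle. -/
theorem result :
    ∃ f : ℕ → ℂ → ℂ, (∀ n, IsInner (f n)) ∧ (∀ n, ∃ z ∈ ball (0 : ℂ) 1, f n z ≠ z) ∧
      (∀ z ∈ ball (0 : ℂ) 1, ∀ w ∈ ball (0 : ℂ) 1,
        Tendsto (fun n => hypDist (forwardComp f n z) (forwardComp f n w)) atTop (𝓝 0)) ∧
      (∀ z ∈ ball (0 : ℂ) 1, Tendsto (fun n => ‖forwardComp f n z‖) atTop (𝓝 1)) ∧
      ¬ Summable (fun n => 1 - ‖forwardComp f n 0‖) ∧
      ∀ᵐ t : ℝ, pt t ∈ denjoyWolffSet (forwardComp f) := by
  refine ⟨f, f_inner, f_ne_id, fun z hz w hw => contracting (mem_ball_zero_iff.1 hz)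
    (mem_ball_zero_iff.1 hw), fun z hz => ?_, not_summable, dw_full⟩
  have h := (tendsto_F (mem_ball_zero_iff.1 hz)).norm
  rwa [norm_one] at h

end Pool.Agent.Results.MP_9b5b1e_an.FullDenjoyWolffSet
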